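import Pool.Agent.Run7.h131.AD.Iface

/-!
# Project AD, piece PMO: `D^p ≡ del d` modulo `p` on `O_p`
-/

set_option autoImplicit false

namespace Run7.h393.AD

open Run7.h131.AD
open Finset

lemma D_add (a b : PS) : D (a + b) = D a + D b := by
  unfold D; exact map_add _ _ _

lemma D_mul (a b : PS) : D (a * b) = a * D b + b * D a := by
  unfold D
  rw [Derivation.leibniz, smul_eq_mul, smul_eq_mul]

lemma D_C (x : ℚ) : D (PowerSeries.C x) = 0 := by
  unfold D
  have h : (PowerSeries.C x : PS) = algebraMap ℚ PS x := rfl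
  rw [h, Derivation.map_algebraMap]

lemma D_zero : D (0 : PS) = 0 := by
  unfold D; exact map_zero _

lemma iter_add (n : ℕ) (a b : PS) : D^[n] (a + b) = D^[n] a + D^[n] b := by
  induction n with
  | zero => rfl
  | succ n ih => rw [Function.iterate_succ_apply', Function.iterate_succ_apply',
      Function.iterate_succ_apply', ih, D_add]

lemma iter_zero (n : ℕ) : D^[n] (0 : PS) = 0 := by
  induction n with
  | zero => rfl
  | succ n ih => rw [Function.iterate_succ_apply', ih, D_zero]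

lemma iter_neg (n : ℕ) (a : PS) : D^[n] (-a) = -D^[n] a := by
  have h := iter_add n a (-a)
  rw [add_neg_cancel, iter_zero] at h
  exact (neg_eq_of_add_eq_zero_right h.symm).symm

lemma iter_C {n : ℕ} (hn : 0 < n) (x : ℚ) : D^[n] (PowerSeries.C x) = 0 := by
  obtain ⟨k, rfl⟩ := Nat.exists_eq_succ_of_ne_zero hn.ne'
  rw [Function.iterate_succ_apply, D_C, iter_zero]

/-- polynomials with `p`-integral coefficients have values in every subring which contains the
`p`-integral constants and the `w i` -/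
lemma aeval_mem {p s : ℕ} (w : Fin s → PS) (K : Subring PS)
    (hC : ∀ x : ℚ, ZI p x → PowerSeries.C x ∈ K) (hw : ∀ i, w i ∈ K)
    (H : MvPolynomial (Fin s) ℚ) (hH : PI p H) : MvPolynomial.aeval w H ∈ K := by
  rw [MvPolynomial.aeval_def, MvPolynomial.eval₂_eq']
  refine K.sum_mem fun v _ => K.mul_mem (hC _ (hH v)) ?_
  exact K.prod_mem fun i _ => K.pow_mem (hw i) _

lemma aeval_mem' {s : ℕ} (w : Fin s → PS) (K : Subring PS)
    (hC : ∀ x : ℚ, PowerSeries.C x ∈ K) (hw : ∀ i, w i ∈ K)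
    (H : MvPolynomial (Fin s) ℚ) : MvPolynomial.aeval w H ∈ K := by
  rw [MvPolynomial.aeval_def, MvPolynomial.eval₂_eq']
  refine K.sum_mem fun v _ => K.mul_mem (hC _) ?_
  exact K.prod_mem fun i _ => K.pow_mem (hw i) _

lemma ev_aeval {s : ℕ} (w : Fin s → PS) (H : MvPolynomial (Fin s) ℚ) :
    ev (MvPolynomial.aeval w H) = MvPolynomial.eval (c0 w) H := by
  unfold ev
  rw [MvPolynomial.aeval_def, MvPolynomial.eval₂_eq', map_sum, MvPolynomial.eval_eq']
  refine sum_congr rfl fun v _ => ?_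
  rw [map_mul, map_prod]
  congr 1
  refine prod_congr rfl fun i _ => ?_
  rw [map_pow]
  rfl

/-- **Piece PMO** -/
theorem t_PMO (h1 : S_ZZZ) (h2 : S_RNG) (h3 : S_VID) (h4 : S_DCL) (h5 : S_LP) (h6 : S_PMW)
    (h7 : S_DELC) : S_PMO := by
  intro s w N M hA p hG d hd hdi hdd g hg
  obtain ⟨-, -, -, -, -, hpd, -, -⟩ := h1
  obtain ⟨SO, hSO, hSOC, hSOw, -⟩ := h2.1 s w
  obtain ⟨S, hS, hSC, hSw, -, hSSO, hSinv⟩ := h2.2 p s w hG.prime hG.c
  obtain ⟨-, -, hDO, hDp⟩ := h4 s w N M hA
  obtain ⟨hvS, hDS⟩ := hDp p hG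
  obtain ⟨hadd, hmul, hconst, hsm, -⟩ := h7 s w N M hA d hd
  have hmS : ∀ x, x ∈ S ↔ x ∈ OP p w := fun x => by rw [← hS]; rfl
  have hmO : ∀ x, x ∈ SO ↔ x ∈ OQ w := fun x => by rw [← hSO]; rfl
  have hSQ : ∀ x ∈ S, x ∈ OQ w := hSSO
  have hDS' : ∀ a ∈ S, D a ∈ S := fun a ha => (hmS _).2 (hDS a ((hmS _).1 ha))
  have hvS' : ∀ i j, vv w N M i j ∈ S := fun i j => (hmS _).2 (hvS i j)
  -- the invariant derivation of the `w i`
  have hwk : ∀ i k, D^[k] (w i) ∈ SO := by
    intro i k
    induction k with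
    | zero => exact hSOw i
    | succ k ih =>
      rw [Function.iterate_succ_apply']
      exact (hmO _).2 (hDO _ ((hmO _).1 ih))
  have hdw : ∀ i, del d (w i) = ∑ j, PowerSeries.C (d (w j)) * vv w N M i j :=
    h3 s w N M hA SO hSOC hwk d (by rw [hSO]; exact hd)
  have hdwS : ∀ i, del d (w i) ∈ S := fun i => by
    rw [hdw]
    exact S.sum_mem fun j _ => S.mul_mem (hSC _ (hdi j)) (hvS' i j)
  -- the derivation on polynomials
  have hpoly : ∀ H : MvPolynomial (Fin s) ℚ, del d (MvPolynomial.aeval w H) =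
      ∑ i, MvPolynomial.aeval w (MvPolynomial.pderiv i H) * del d (w i) := by
    intro H
    induction H using MvPolynomial.induction_on with
    | C a =>
      rw [MvPolynomial.aeval_C]
      have e : (algebraMap ℚ PS a) = PowerSeries.C a := rfl
      rw [e, hconst]
      symm
      refine sum_eq_zero fun i _ => ?_
      rw [MvPolynomial.pderiv_C, map_zero, zero_mul]
    | add P Q hP hQ =>
      rw [map_add, hadd _ ((hmO _).1 (aeval_mem' w SO hSOC hSOw P)) _
        ((hmO _).1 (aeval_mem' w SO hSOC hSOw Q)), hP, hQ, ← sum_add_distrib]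
      refine sum_congr rfl fun i _ => ?_
      rw [map_add, map_add, add_mul]
    | mul_X P j hP =>
      rw [map_mul, MvPolynomial.aeval_X, hmul _ ((hmO _).1 (aeval_mem' w SO hSOC hSOw P)) _
        ((hmO _).1 (hSOw j)), hP, mul_sum]
      have e : ∀ i, MvPolynomial.aeval w (MvPolynomial.pderiv i (P * MvPolynomial.X j)) * del d (w i)
          = (if i = j then MvPolynomial.aeval w P * del d (w j) else 0) +
            w j * (MvPolynomial.aeval w (MvPolynomial.pderiv i P) * del d (w i)) := by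
        intro i
        rw [Derivation.leibniz, MvPolynomial.pderiv_X]
        by_cases hij : i = j
        · subst hij
          simp only [Pi.single_eq_same, smul_eq_mul, map_add, map_mul, map_one, MvPolynomial.aeval_X,
            if_true]
          ring
        · rw [if_neg hij, Pi.single_eq_of_ne (fun h => hij h.symm)]
          simp only [smul_eq_mul, map_add, map_mul, mul_zero, map_zero, MvPolynomial.aeval_X]
          ring
      rw [sum_congr rfl fun i _ => e i, sum_add_distrib, sum_ite_eq' univ j, if_pos (mem_univ _)]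
  have hpolyS : ∀ H : MvPolynomial (Fin s) ℚ, PI p H → del d (MvPolynomial.aeval w H) ∈ S := by
    intro H hH
    rw [hpoly]
    refine S.sum_mem fun i _ => S.mul_mem ?_ (hdwS i)
    exact aeval_mem w S hSC hSw _ (hpd p (Fin s) H i hG.prime hH)
  -- `del d` maps `O_p` to itself
  have hdelS : ∀ a ∈ S, del d a ∈ S := by
    intro a ha
    obtain ⟨P, Q, hP, hQ, hu, he⟩ := (hmS _).1 ha
    have hQS : MvPolynomial.aeval w Q ∈ S := aeval_mem w S hSC hSw Q hQ
    have hevu : ZU p (ev (MvPolynomial.aeval w Q)) := by rw [ev_aeval]; exact hu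
    have hne : PowerSeries.constantCoeff (MvPolynomial.aeval w Q) ≠ 0 := hevu.1
    have hinv : (MvPolynomial.aeval w Q)⁻¹ ∈ S := hSinv _ hQS hevu
    have e1 := hmul _ (hSQ _ hQS) _ (hSQ _ ha)
    rw [he] at e1
    have e2 : del d a = (MvPolynomial.aeval w Q)⁻¹ *
        (del d (MvPolynomial.aeval w P) - a * del d (MvPolynomial.aeval w Q)) := by
      rw [e1, add_sub_cancel_right, ← mul_assoc, PowerSeries.inv_mul_cancel _ hne, one_mul]
    rw [e2]
    exact S.mul_mem hinv (S.sub_mem (hpolyS P hP) (S.mul_mem ha (hpolyS Q hQ)))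
  -- the error modulo `p`
  have hLP : ∀ a ∈ S, ∀ b ∈ S, ∃ r ∈ S, D^[p] (a * b) - del d (a * b) =
      a * (D^[p] b - del d b) + b * (D^[p] a - del d a) + PowerSeries.C (p : ℚ) * r := by
    intro a ha b hb
    obtain ⟨r, hr, e⟩ := h5 PS D S p hG.prime D_add D_mul hDS' a ha b hb
    refine ⟨r, hr, ?_⟩
    rw [e, hmul a (hSQ a ha) b (hSQ b hb)]
    have ep : ((p : ℕ) : PS) = PowerSeries.C (p : ℚ) := by simp
    rw [ep]
    ring
  let K : Subring PS :=
    { carrier := {a | a ∈ S ∧ ∃ h ∈ S, D^[p] a - del d a = PowerSeries.C (p : ℚ) * h}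
      mul_mem' := by
        rintro a b ⟨ha, h, hh, ea⟩ ⟨hb, k, hk, eb⟩
        refine ⟨S.mul_mem ha hb, ?_⟩
        obtain ⟨r, hr, e⟩ := hLP a ha b hb
        refine ⟨a * k + b * h + r, S.add_mem (S.add_mem (S.mul_mem ha hk) (S.mul_mem hb hh)) hr, ?_⟩
        rw [e, ea, eb]
        ring
      one_mem' := by
        refine ⟨S.one_mem, 0, S.zero_mem, ?_⟩
        have e : (1 : PS) = PowerSeries.C (1 : ℚ) := by simp
        rw [e, iter_C hG.prime.pos, hconst, mul_zero, sub_zero]
      add_mem' := by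
        rintro a b ⟨ha, h, hh, ea⟩ ⟨hb, k, hk, eb⟩
        refine ⟨S.add_mem ha hb, h + k, S.add_mem hh hk, ?_⟩
        rw [iter_add, hadd a (hSQ a ha) b (hSQ b hb), mul_add, ← ea, ← eb]
        ring
      zero_mem' := by
        refine ⟨S.zero_mem, 0, S.zero_mem, ?_⟩
        rw [iter_zero]
        have : del d (0 : PS) = 0 := by
          have h0 := hconst 0
          rwa [map_zero] at h0
        rw [this, mul_zero, sub_zero]
      neg_mem' := by
        rintro a ⟨ha, h, hh, ea⟩
        refine ⟨S.neg_mem ha, -h, S.neg_mem hh, ?_⟩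
        have e : del d (-a) = -del d a := by
          have e1 := hsm (-1) a (hSQ a ha)
          have e2 : (PowerSeries.C (-1 : ℚ) : PS) = -1 := by simp
          rw [e2, neg_one_mul, neg_one_mul] at e1
          exact e1
        rw [iter_neg, e, mul_neg, ← ea]
        ring }
  have hKC : ∀ x : ℚ, ZI p x → PowerSeries.C x ∈ K := by
    intro x hx
    refine ⟨hSC x hx, 0, S.zero_mem, ?_⟩
    rw [iter_C hG.prime.pos, hconst, mul_zero, sub_zero]
  have hKw : ∀ i, w i ∈ K := by
    intro i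
    refine ⟨hSw i, ?_⟩
    obtain ⟨h, hh, e⟩ := h6 s w N M hA p hG i
    choose y hy hy' using hdd
    refine ⟨h + ∑ j, PowerSeries.C (y j) * vv w N M i j,
      S.add_mem ((hmS _).2 hh) (S.sum_mem fun j _ => S.mul_mem (hSC _ (hy j)) (hvS' i j)), ?_⟩
    rw [hdw, mul_add, ← e, mul_sum]
    have e2 : ∀ j, PowerSeries.C (p : ℚ) * (PowerSeries.C (y j) * vv w N M i j) =
        PowerSeries.C (cp p w j) * vv w N M i j - PowerSeries.C (d (w j)) * vv w N M i j := by
      intro j
      rw [← mul_assoc, ← map_mul, ← hy' j, map_sub, sub_mul]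
    rw [sum_congr rfl fun j _ => e2 j, sum_sub_distrib]
    ring
  have hKP : ∀ H : MvPolynomial (Fin s) ℚ, PI p H → MvPolynomial.aeval w H ∈ K :=
    fun H hH => aeval_mem w K hKC hKw H hH
  -- conclusion
  have hgS : g ∈ S := (hmS _).2 hg
  refine ⟨(hmS _).1 (hdelS g hgS), ?_⟩
  obtain ⟨P, Q, hP, hQ, hu, he⟩ := hg
  have hQS : MvPolynomial.aeval w Q ∈ S := aeval_mem w S hSC hSw Q hQ
  have hevu : ZU p (ev (MvPolynomial.aeval w Q)) := by rw [ev_aeval]; exact hu
  have hne : PowerSeries.constantCoeff (MvPolynomial.aeval w Q) ≠ 0 := hevu.1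
  have hinv : (MvPolynomial.aeval w Q)⁻¹ ∈ S := hSinv _ hQS hevu
  obtain ⟨r, hr, e⟩ := hLP _ hQS g hgS
  rw [he] at e
  obtain ⟨-, a, ha, ea⟩ := hKP P hP
  obtain ⟨-, b, hb, eb⟩ := hKP Q hQ
  refine ⟨(MvPolynomial.aeval w Q)⁻¹ * (a - g * b - r),
    (hmS _).1 (S.mul_mem hinv (S.sub_mem (S.sub_mem ha (S.mul_mem hgS hb)) hr)), ?_⟩
  have e3 : MvPolynomial.aeval w Q * (D^[p] g - del d g) =
      PowerSeries.C (p : ℚ) * (a - g * b - r) := by
    rw [ea, eb] at e
    linear_combination -e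
  calc D^[p] g - del d g
      = (MvPolynomial.aeval w Q)⁻¹ * (MvPolynomial.aeval w Q * (D^[p] g - del d g)) := by
        rw [← mul_assoc, PowerSeries.inv_mul_cancel _ hne, one_mul]
    _ = PowerSeries.C (p : ℚ) * ((MvPolynomial.aeval w Q)⁻¹ * (a - g * b - r)) := by
        rw [e3]; ring

end Run7.h393.AD
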